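import Mathlib

/-!
# For `α = 3` the branches have no common minimiser
-/

open Finset Filter Topology

namespace Pool.Agent.Results.MP_9fecad_an.NoCommonMinimiser

/-- The function `G_{α,β}(ξ)`. -/
noncomputable def G (α : ℕ) (β : ℝ) (ξ : ℂ) : ℂ :=
  ∑ n ∈ range (α + 2), ((α + 1).choose n : ℂ) * ((-ξ) ^ n / ((n : ℂ) + β))

/-- `X 0, …, X α` are the branches of zeros of `G_{α,β}`: continuous functions of `β ∈ (-1, 0)`,
pairwise distinct, whose values at `β` are exactly the zeros of `G_{α,β}`, and `X 0` is the real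
negative branch. -/
structure Branches (α : ℕ) (X : ℕ → ℝ → ℂ) : Prop where
  cont : ∀ k ≤ α, ContinuousOn (X k) (Set.Ioo (-1) 0)
  distinct : ∀ β ∈ Set.Ioo (-1 : ℝ) 0, ∀ j ≤ α, ∀ k ≤ α, X j β = X k β → j = k
  zeros : ∀ β ∈ Set.Ioo (-1 : ℝ) 0, ∀ ξ : ℂ, G α β ξ = 0 ↔ ∃ k ≤ α, X k β = ξ
  real : ∀ β ∈ Set.Ioo (-1 : ℝ) 0, (X 0 β).im = 0 ∧ (X 0 β).re < 0

/-- the real function `G_{3,β}` -/
noncomputable def g (β ξ : ℝ) : ℝ :=
  1 / β - 4 * ξ / (1 + β) + 6 * ξ ^ 2 / (2 + β) - 4 * ξ ^ 3 / (3 + β) + ξ ^ 4 / (4 + β)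

lemma G_eq (β : ℝ) (ξ : ℂ) : G 3 β ξ = 1 / β - 4 * ξ / (1 + β) + 6 * ξ ^ 2 / (2 + β)
    - 4 * ξ ^ 3 / (3 + β) + ξ ^ 4 / (4 + β) := by
  unfold G
  simp only [Finset.sum_range_succ, Finset.sum_range_zero]
  norm_num [Nat.choose]
  ring

lemma G_real (β ξ : ℝ) : G 3 β ξ = (g β ξ : ℂ) := by
  rw [G_eq]
  unfold g
  push_cast
  ring

/-- convexity -/
lemma conv {β a b : ℝ} (h1 : -1 < β) (h2 : β < 0) (ha : 0 < a) (hab : a < b) (hb : g β b ≤ 0) :
    g β a < 0 := by
  have e : b * g β a = a * g β b + (b - a) * (1 / β) - a * b * (b - a) * (6 / (2 + β)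
      - 4 * (a + b) / (3 + β) + (a ^ 2 + a * b + b ^ 2) / (4 + β)) := by
    unfold g
    ring
  have hbr : 0 < 6 / (2 + β) - 4 * (a + b) / (3 + β) + (a ^ 2 + a * b + b ^ 2) / (4 + β) := by
    have h3 : 0 < 2 + β := by linarith
    have h4 : 0 < 3 + β := by linarith
    have h5 : 0 < 4 + β := by linarith
    have e2 : 6 / (2 + β) - 4 * (a + b) / (3 + β) + (a ^ 2 + a * b + b ^ 2) / (4 + β)
        = (3 / 4 * (2 + β) * (3 + β) * ((a + b) - 8 / 3 * (4 + β) / (3 + β)) ^ 2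
          + (1 / 4) * (2 + β) * (3 + β) * (a - b) ^ 2
          + (4 + β) / (3 + β) * (6 * (3 + β) ^ 2 - 16 / 3 * (2 + β) * (4 + β)))
          / ((2 + β) * (3 + β) * (4 + β)) := by
      field_simp
      ring
    rw [e2]
    apply div_pos _ (by positivity)
    have h6 : 0 < 6 * (3 + β) ^ 2 - 16 / 3 * (2 + β) * (4 + β) := by nlinarith
    have h7 : 0 < (4 + β) / (3 + β) * (6 * (3 + β) ^ 2 - 16 / 3 * (2 + β) * (4 + β)) := by
      positivity
    have h8 : 0 ≤ 3 / 4 * (2 + β) * (3 + β) * ((a + b) - 8 / 3 * (4 + β) / (3 + β)) ^ 2 := by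
      positivity
    have h9 : 0 ≤ (1 / 4) * (2 + β) * (3 + β) * (a - b) ^ 2 := by positivity
    linarith
  have hb0 : 0 < b := ha.trans hab
  have h3 : a * g β b ≤ 0 := mul_nonpos_of_nonneg_of_nonpos ha.le hb
  have h4 : (b - a) * (1 / β) < 0 := by
    apply mul_neg_of_pos_of_neg (by linarith)
    exact one_div_neg.mpr h2
  have h5 : 0 < a * b * (b - a) * (6 / (2 + β)
      - 4 * (a + b) / (3 + β) + (a ^ 2 + a * b + b ^ 2) / (4 + β)) := by
    have : 0 < b - a := by linarith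
    positivity
  by_contra hcon
  push Not at hcon
  have := mul_nonneg hb0.le hcon
  linarith

/-- `√3 - 2` -/
noncomputable def b₀ : ℝ := Real.sqrt 3 - 2

lemma sqrt3_bounds : (1732 / 1000 : ℝ) < Real.sqrt 3 ∧ Real.sqrt 3 < 1733 / 1000 := by
  constructor
  · apply Real.lt_sqrt_of_sq_lt; norm_num
  · rw [Real.sqrt_lt' (by norm_num)]; norm_num

lemma b₀_mem : b₀ ∈ Set.Ioo (-1 : ℝ) 0 := by
  obtain ⟨h1, h2⟩ := sqrt3_bounds
  unfold b₀
  constructor <;> linarith

lemma g_crit {β : ℝ} (h1 : -1 < β) (h2 : β < 0) : g β (2 + Real.sqrt 3)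
    = (28 + 16 * Real.sqrt 3) * (β - b₀) ^ 2 * (β ^ 2 + 4 * β + 6)
      / (β * (1 + β) * (2 + β) * (3 + β) * (4 + β)) := by
  have hr : Real.sqrt 3 ^ 2 = 3 := Real.sq_sqrt (by norm_num)
  have h3 : 2 + β ≠ 0 := by linarith
  have h4 : 3 + β ≠ 0 := by linarith
  have h5 : 4 + β ≠ 0 := by linarith
  have h6 : 1 + β ≠ 0 := by linarith
  have h7 : β ≠ 0 := h2.ne
  unfold g b₀
  set r := Real.sqrt 3 with hrdef
  field_simp
  have hr3 : r ^ 3 = 3 * r := by rw [pow_succ, hr]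
  have hr4 : r ^ 4 = 9 := by
    have : r ^ 4 = (r ^ 2) ^ 2 := by ring
    rw [this, hr]; norm_num
  ring_nf
  rw [hr4, hr3, hr]
  ring

lemma g_le {β : ℝ} (h1 : -1 < β) (h2 : β < 0) : g β (2 + Real.sqrt 3) ≤ 0 := by
  rw [g_crit h1 h2]
  apply div_nonpos_of_nonneg_of_nonpos
  · have : 0 ≤ Real.sqrt 3 := Real.sqrt_nonneg 3
    have h3 : 0 < β ^ 2 + 4 * β + 6 := by nlinarith [sq_nonneg (β + 2)]
    positivity
  · have h3 : 0 < 1 + β := by linarith
    have h4 : 0 < (1 + β) * (2 + β) * (3 + β) * (4 + β) := by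
      have : 0 < 2 + β := by linarith
      have : 0 < 3 + β := by linarith
      have : 0 < 4 + β := by linarith
      positivity
    nlinarith

lemma g_lt {β : ℝ} (h1 : -1 < β) (h2 : β < 0) (h : β ≠ b₀) : g β (2 + Real.sqrt 3) < 0 := by
  rw [g_crit h1 h2]
  apply div_neg_of_pos_of_neg
  · have : 0 ≤ Real.sqrt 3 := Real.sqrt_nonneg 3
    have h3 : 0 < β ^ 2 + 4 * β + 6 := by nlinarith [sq_nonneg (β + 2)]
    have h4 : 0 < (β - b₀) ^ 2 := by
      have : β - b₀ ≠ 0 := sub_ne_zero.mpr h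
      positivity
    positivity
  · have h3 : 0 < 1 + β := by linarith
    have h4 : 0 < (1 + β) * (2 + β) * (3 + β) * (4 + β) := by
      have : 0 < 2 + β := by linarith
      have : 0 < 3 + β := by linarith
      have : 0 < 4 + β := by linarith
      positivity
    nlinarith

lemma g_b₀ : g b₀ (2 + Real.sqrt 3) = 0 := by
  rw [g_crit b₀_mem.1 b₀_mem.2, sub_self]
  ring

/-- the values at negative arguments increase -/
lemma g_neg_mono {β s t : ℝ} (h1 : -1 < β) (hs : 0 ≤ s) (hst : s < t) :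
    g β (-s) < g β (-t) := by
  have h3 : 0 < 2 + β := by linarith
  have h4 : 0 < 3 + β := by linarith
  have h5 : 0 < 4 + β := by linarith
  have h6 : 0 < 1 + β := by linarith
  have e : ∀ t : ℝ, g β (-t) = 1 / β + 4 * t / (1 + β) + 6 * t ^ 2 / (2 + β) + 4 * t ^ 3 / (3 + β)
      + t ^ 4 / (4 + β) := by
    intro t
    unfold g
    ring
  rw [e, e]
  have i1 : 4 * s / (1 + β) < 4 * t / (1 + β) := by gcongr
  have i2 : 6 * s ^ 2 / (2 + β) ≤ 6 * t ^ 2 / (2 + β) := by gcongr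
  have i3 : 4 * s ^ 3 / (3 + β) ≤ 4 * t ^ 3 / (3 + β) := by gcongr
  have i4 : s ^ 4 / (4 + β) ≤ t ^ 4 / (4 + β) := by gcongr
  linarith

lemma g_zero_ne {β : ℝ} (h2 : β < 0) : g β 0 < 0 := by
  unfold g
  have := one_div_neg.mpr h2
  simp only [mul_zero, zero_div, ne_eq, OfNat.ofNat_ne_zero, not_false_eq_true, zero_pow]
  linarith

section

variable {X : ℕ → ℝ → ℂ} (hX : Branches 3 X)

include hX

lemma real_root {β : ℝ} (hβ : β ∈ Set.Ioo (-1 : ℝ) 0) {k : ℕ} (hk3 : k ≤ 3)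
    (him : (X k β).im = 0) : g β (X k β).re = 0 := by
  have h1 : G 3 β (X k β) = 0 := (hX.zeros β hβ _).mpr ⟨k, hk3, rfl⟩
  have h2 : X k β = (((X k β).re : ℝ) : ℂ) := by
    apply Complex.ext <;> simp [him]
  rw [h2, G_real] at h1
  exact_mod_cast h1

/-- a real branch value other than `X 0` is at least `2 + √3` -/
lemma real_ge {β : ℝ} (hβ : β ∈ Set.Ioo (-1 : ℝ) 0) {k : ℕ} (hk1 : 1 ≤ k) (hk3 : k ≤ 3)
    (him : (X k β).im = 0) : 2 + Real.sqrt 3 ≤ (X k β).re ∧
      ((X k β).re = 2 + Real.sqrt 3 → β = b₀) := by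
  have hroot := real_root hX hβ hk3 him
  have hroot0 := real_root hX hβ (Nat.zero_le 3) (hX.real β hβ).1
  have hneg0 := (hX.real β hβ).2
  set x := (X k β).re with hx
  set y := (X 0 β).re with hy
  have hx0 : 0 < x := by
    rcases lt_trichotomy x 0 with h | h | h
    · -- then `x = y`
      exfalso
      have hxy : x = y := by
        rcases lt_trichotomy x y with h1 | h1 | h1
        · have := g_neg_mono hβ.1 (s := -y) (t := -x) (by linarith) (by linarith)
          rw [neg_neg, neg_neg, hroot, hroot0] at this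
          exact absurd this (lt_irrefl _)
        · exact h1
        · have := g_neg_mono hβ.1 (s := -x) (t := -y) (by linarith) (by linarith)
          rw [neg_neg, neg_neg, hroot, hroot0] at this
          exact absurd this (lt_irrefl _)
      have : X k β = X 0 β := by
        apply Complex.ext
        · exact hxy
        · rw [him, (hX.real β hβ).1]
      have := hX.distinct β hβ k hk3 0 (Nat.zero_le 3) this
      omega
    · exfalso
      have := g_zero_ne hβ.2
      rw [h] at hroot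
      linarith
    · exact h
  constructor
  · by_contra hcon
    push Not at hcon
    have := conv hβ.1 hβ.2 hx0 hcon (g_le hβ.1 hβ.2)
    linarith
  · intro h
    by_contra hne
    have := g_lt hβ.1 hβ.2 hne
    rw [← h, hroot] at this
    exact lt_irrefl _ this

/-- at most one real branch value besides `X 0` -/
lemma real_unique {β : ℝ} (hβ : β ∈ Set.Ioo (-1 : ℝ) 0) {j k : ℕ} (hj1 : 1 ≤ j) (hj3 : j ≤ 3)
    (hk1 : 1 ≤ k) (hk3 : k ≤ 3) (hj : (X j β).im = 0) (hk : (X k β).im = 0) : j = k := by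
  apply hX.distinct β hβ j hj3 k hk3
  have h1 := real_root hX hβ hj3 hj
  have h2 := real_root hX hβ hk3 hk
  have h3 := (real_ge hX hβ hj1 hj3 hj).1
  have h4 := (real_ge hX hβ hk1 hk3 hk).1
  have hs := Real.sqrt_nonneg 3
  apply Complex.ext
  · rcases lt_trichotomy (X j β).re (X k β).re with h | h | h
    · have := conv hβ.1 hβ.2 (by linarith) h h2.le
      linarith
    · exact h
    · have := conv hβ.1 hβ.2 (by linarith) h h1.le
      linarith
  · rw [hj, hk]

/-- there is a real branch value besides `X 0` -/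
lemma real_exists {β : ℝ} (hβ : β ∈ Set.Ioo (-1 : ℝ) 0) : ∃ k, 1 ≤ k ∧ k ≤ 3 ∧ (X k β).im = 0 := by
  obtain ⟨hβ1, hβ2⟩ := hβ
  -- a positive real root by the intermediate value theorem
  have h3 : 0 < 2 + β := by linarith
  have h4 : 0 < 3 + β := by linarith
  have h5 : 0 < 4 + β := by linarith
  have h6 : 0 < 1 + β := by linarith
  have hcont : Continuous (g β) := by
    unfold g
    fun_prop
  obtain ⟨M, hM0, hM⟩ : ∃ M : ℝ, 0 < M ∧ 0 < g β M := by
    have hlim : Tendsto (fun ξ : ℝ => g β ξ / ξ ^ 4) atTop (𝓝 (1 / (4 + β))) := by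
      have e : (fun ξ : ℝ => (1 / β) * (ξ⁻¹) ^ 4 - 4 / (1 + β) * (ξ⁻¹) ^ 3
          + 6 / (2 + β) * (ξ⁻¹) ^ 2 - 4 / (3 + β) * ξ⁻¹ + 1 / (4 + β)) =ᶠ[atTop]
          (fun ξ : ℝ => g β ξ / ξ ^ 4) := by
        filter_upwards [eventually_gt_atTop 0] with ξ hξ
        unfold g
        field_simp
      refine Tendsto.congr' e ?_
      have hi := tendsto_inv_atTop_zero (𝕜 := ℝ)
      have := ((((hi.pow 4).const_mul (1 / β)).sub ((hi.pow 3).const_mul (4 / (1 + β)))).add
        ((hi.pow 2).const_mul (6 / (2 + β)))).sub (hi.const_mul (4 / (3 + β)))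
      simpa using this.add_const (1 / (4 + β))
    have hev := (hlim.eventually (eventually_gt_nhds (by positivity : 0 < 1 / (4 + β)))).and
      (eventually_gt_atTop 0)
    obtain ⟨M, hM1, hM2⟩ := hev.exists
    refine ⟨M, hM2, ?_⟩
    by_contra hcon
    push Not at hcon
    have := div_nonpos_of_nonpos_of_nonneg hcon (by positivity : 0 ≤ M ^ 4)
    linarith
  obtain ⟨x, hx, hgx⟩ := intermediate_value_Icc hM0.le hcont.continuousOn
    (⟨(g_zero_ne hβ2).le, hM.le⟩ : (0 : ℝ) ∈ Set.Icc (g β 0) (g β M))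
  have hx0 : 0 < x := by
    rcases hx.1.eq_or_lt with h | h
    · rw [← h] at hgx
      exact absurd hgx (g_zero_ne hβ2).ne
    · exact h
  have hG : G 3 β (x : ℂ) = 0 := by
    rw [G_real, hgx, Complex.ofReal_zero]
  obtain ⟨k, hk3, hk⟩ := (hX.zeros β ⟨hβ1, hβ2⟩ _).mp hG
  refine ⟨k, ?_, hk3, ?_⟩
  · by_contra hcon
    have : k = 0 := by omega
    subst this
    have h7 := (hX.real β ⟨hβ1, hβ2⟩).2
    rw [hk, Complex.ofReal_re] at h7
    linarith
  · rw [hk, Complex.ofReal_im]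

/-- one of the branches `X 1, X 2, X 3` is real throughout -/
lemma real_branch : ∃ k, 1 ≤ k ∧ k ≤ 3 ∧ ∀ β ∈ Set.Ioo (-1 : ℝ) 0, (X k β).im = 0 := by
  obtain ⟨k, hk1, hk3, hk⟩ := real_exists hX b₀_mem
  refine ⟨k, hk1, hk3, ?_⟩
  by_contra hcon
  push Not at hcon
  obtain ⟨β, hβ, hne⟩ := hcon
  -- two relatively closed sets
  have hclosed : ∀ j ≤ 3, ∃ t : Set ℝ, IsClosed t ∧
      Set.Ioo (-1 : ℝ) 0 ∩ {β | (X j β).im = 0} = Set.Ioo (-1 : ℝ) 0 ∩ t := by
    intro j hj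
    have hc : ContinuousOn (fun β => (X j β).im) (Set.Ioo (-1) 0) :=
      Complex.continuous_im.comp_continuousOn (hX.cont j hj)
    obtain ⟨t, ht, h⟩ := (continuousOn_iff_isClosed.mp hc) {0} isClosed_singleton
    refine ⟨t, ht, ?_⟩
    rw [Set.inter_comm (Set.Ioo (-1 : ℝ) 0) t, ← h]
    ext x
    simp [and_comm]
  choose! t ht1 ht2 using hclosed
  have hpre : IsPreconnected (Set.Ioo (-1 : ℝ) 0) := isPreconnected_Ioo
  rw [isPreconnected_closed_iff] at hpre
  set T : Set ℝ := ⋃ j ∈ ((Finset.Icc 1 3).erase k : Finset ℕ), t j with hT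
  have hTc : IsClosed T := by
    apply Set.Finite.isClosed_biUnion (Finset.finite_toSet _)
    intro j hj
    have : j ∈ Finset.Icc 1 3 := Finset.mem_of_mem_erase hj
    exact ht1 j (Finset.mem_Icc.mp this).2
  have hmem : ∀ j ≤ 3, ∀ x ∈ Set.Ioo (-1 : ℝ) 0, x ∈ t j ↔ (X j x).im = 0 := by
    intro j hj x hx
    have := Set.ext_iff.mp (ht2 j hj) x
    simp only [Set.mem_inter_iff, hx, true_and, Set.mem_ofPred_eq] at this
    exact this.symm
  have h1 := hpre (t k) T (ht1 k hk3) hTc (fun x hx => by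
    obtain ⟨j, hj1, hj3, hj⟩ := real_exists hX hx
    by_cases hjk : j = k
    · left
      rw [← hjk]
      exact (hmem j hj3 x hx).mpr hj
    · right
      rw [hT, Set.mem_iUnion₂]
      exact ⟨j, Finset.mem_erase.mpr ⟨hjk, Finset.mem_Icc.mpr ⟨hj1, hj3⟩⟩,
        (hmem j hj3 x hx).mpr hj⟩) ⟨b₀, b₀_mem, (hmem k hk3 _ b₀_mem).mpr hk⟩ (by
    obtain ⟨j, hj1, hj3, hj⟩ := real_exists hX hβ
    have hjk : j ≠ k := by
      rintro rfl
      exact hne hj
    refine ⟨β, hβ, ?_⟩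
    rw [hT, Set.mem_iUnion₂]
    exact ⟨j, Finset.mem_erase.mpr ⟨hjk, Finset.mem_Icc.mpr ⟨hj1, hj3⟩⟩,
      (hmem j hj3 β hβ).mpr hj⟩)
  obtain ⟨x, hx, hxk, hxT⟩ := h1
  rw [hT, Set.mem_iUnion₂] at hxT
  obtain ⟨j, hj, hxj⟩ := hxT
  obtain ⟨hjk, hj'⟩ := Finset.mem_erase.mp hj
  obtain ⟨hj1, hj3⟩ := Finset.mem_Icc.mp hj'
  exact hjk (real_unique hX hx hj1 hj3 hk1 hk3 ((hmem j hj3 x hx).mp hxj)
    ((hmem k hk3 x hx).mp hxk))

/-- Vieta: the product of the branches -/
lemma prod_eq {β : ℝ} (hβ : β ∈ Set.Ioo (-1 : ℝ) 0) :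
    X 0 β * X 1 β * X 2 β * X 3 β = (4 + β) / β := by
  have hβ1 := hβ.1
  have hβ2 := hβ.2
  have e1 : (1 : ℂ) + β ≠ 0 := by
    intro h
    have : (1 + β : ℝ) = 0 := by exact_mod_cast h
    linarith
  have e2 : (2 : ℂ) + β ≠ 0 := by
    intro h
    have : (2 + β : ℝ) = 0 := by exact_mod_cast h
    linarith
  have e3 : (3 : ℂ) + β ≠ 0 := by
    intro h
    have : (3 + β : ℝ) = 0 := by exact_mod_cast h
    linarith
  have e4 : (4 : ℂ) + β ≠ 0 := by
    intro h
    have : (4 + β : ℝ) = 0 := by exact_mod_cast h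
    linarith
  have e0 : (β : ℂ) ≠ 0 := by exact_mod_cast hβ2.ne
  -- the polynomial
  set p : Polynomial ℂ := Polynomial.C (1 / (4 + β : ℂ)) * Polynomial.X ^ 4
    + Polynomial.C (-(4 / (3 + β : ℂ))) * Polynomial.X ^ 3
    + Polynomial.C (6 / (2 + β : ℂ)) * Polynomial.X ^ 2
    + Polynomial.C (-(4 / (1 + β : ℂ))) * Polynomial.X + Polynomial.C (1 / (β : ℂ)) with hp
  have hev : ∀ ξ : ℂ, p.eval ξ = G 3 β ξ := by
    intro ξ
    rw [G_eq, hp]
    simp only [Polynomial.eval_add, Polynomial.eval_mul, Polynomial.eval_C, Polynomial.eval_pow,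
      Polynomial.eval_X]
    ring
  have hlc : (1 / (4 + β : ℂ)) ≠ 0 := one_div_ne_zero e4
  have hdeg : p.natDegree = 4 := by
    rw [hp]
    compute_degree!
    linarith
  have hlead : p.leadingCoeff = 1 / (4 + β : ℂ) := by
    rw [Polynomial.leadingCoeff, hdeg, hp]
    simp [Polynomial.coeff_X, Polynomial.coeff_C]
  have hp0 : p ≠ 0 := by
    intro h
    rw [h] at hdeg
    simp at hdeg
  set S : Finset ℂ := {X 0 β, X 1 β, X 2 β, X 3 β} with hS
  have hd : ∀ j k, j ≤ 3 → k ≤ 3 → j ≠ k → X j β ≠ X k β := fun j k hj hk hjk h =>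
    hjk (hX.distinct β hβ j hj k hk h)
  have hcard : S.card = 4 := by
    rw [hS, Finset.card_insert_of_notMem, Finset.card_insert_of_notMem,
      Finset.card_insert_of_notMem, Finset.card_singleton]
    · simp only [Finset.mem_singleton]
      exact hd 2 3 (by omega) (by omega) (by omega)
    · simp only [Finset.mem_insert, Finset.mem_singleton, not_or]
      exact ⟨hd 1 2 (by omega) (by omega) (by omega), hd 1 3 (by omega) (by omega) (by omega)⟩
    · simp only [Finset.mem_insert, Finset.mem_singleton, not_or]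
      exact ⟨hd 0 1 (by omega) (by omega) (by omega), hd 0 2 (by omega) (by omega) (by omega),
        hd 0 3 (by omega) (by omega) (by omega)⟩
  have hroots : S.val = p.roots := by
    apply Multiset.eq_of_le_of_card_le
    · rw [Multiset.le_iff_subset S.nodup]
      intro ξ hξ
      have hξ' : ξ ∈ S := hξ
      rw [Polynomial.mem_roots hp0, Polynomial.IsRoot, hev]
      rw [hS] at hξ'
      simp only [Finset.mem_insert, Finset.mem_singleton] at hξ'
      rw [hX.zeros β hβ]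
      rcases hξ' with h | h | h | h
      · exact ⟨0, by omega, h.symm⟩
      · exact ⟨1, by omega, h.symm⟩
      · exact ⟨2, by omega, h.symm⟩
      · exact ⟨3, by omega, h.symm⟩
    · have := Polynomial.card_roots' p
      rw [hdeg] at this
      change _ ≤ S.card
      rw [hcard]
      exact this
  have hfac := (IsAlgClosed.splits p).eq_prod_roots
  rw [← hroots, hlead] at hfac
  have h0 := congrArg (Polynomial.eval 0) hfac
  rw [hev, G_eq] at h0
  have hprod : Polynomial.eval 0 ((S.val.map fun a => Polynomial.X - Polynomial.C a).prod)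
      = X 0 β * X 1 β * X 2 β * X 3 β := by
    change Polynomial.eval 0 (∏ a ∈ S, (Polynomial.X - Polynomial.C a)) = _
    rw [Polynomial.eval_prod, hS, Finset.prod_insert, Finset.prod_insert, Finset.prod_insert,
      Finset.prod_singleton]
    · simp only [Polynomial.eval_sub, Polynomial.eval_X, Polynomial.eval_C]
      ring
    · simp only [Finset.mem_singleton]
      exact hd 2 3 (by omega) (by omega) (by omega)
    · simp only [Finset.mem_insert, Finset.mem_singleton, not_or]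
      exact ⟨hd 1 2 (by omega) (by omega) (by omega), hd 1 3 (by omega) (by omega) (by omega)⟩
    · simp only [Finset.mem_insert, Finset.mem_singleton, not_or]
      exact ⟨hd 0 1 (by omega) (by omega) (by omega), hd 0 2 (by omega) (by omega) (by omega),
        hd 0 3 (by omega) (by omega) (by omega)⟩
  rw [Polynomial.eval_mul, Polynomial.eval_C, hprod] at h0
  simp only [mul_zero, zero_div, ne_eq, OfNat.ofNat_ne_zero, not_false_eq_true, zero_pow,
    sub_zero, add_zero] at h0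
  rw [eq_div_iff e0]
  have h1 : X 0 β * X 1 β * X 2 β * X 3 β = (4 + β) * (1 / β) := by
    rw [h0]
    field_simp
  rw [h1]
  field_simp

theorem no_common : ¬ ∃ b ∈ Set.Ioo (-1 : ℝ) 0, ∀ k, 1 ≤ k → k ≤ 3 →
    ∀ β ∈ Set.Ioo (-1 : ℝ) 0, ‖X k b‖ ≤ ‖X k β‖ := by
  rintro ⟨b, hb, hmin⟩
  obtain ⟨hr1, hr2⟩ := sqrt3_bounds
  have hr : Real.sqrt 3 ^ 2 = 3 := Real.sq_sqrt (by norm_num)
  -- the real branch
  obtain ⟨k, hk1, hk3, hk⟩ := real_branch hX
  have hnorm : ∀ β ∈ Set.Ioo (-1 : ℝ) 0, ‖X k β‖ = (X k β).re := by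
    intro β hβ
    have h1 := (real_ge hX hβ hk1 hk3 (hk β hβ)).1
    have h2 : X k β = (((X k β).re : ℝ) : ℂ) := by
      apply Complex.ext <;> simp [hk β hβ]
    rw [h2, Complex.norm_real, Real.norm_eq_abs, Complex.ofReal_re, abs_of_nonneg (by linarith)]
  -- the value at `b₀`
  have hval : (X k b₀).re = 2 + Real.sqrt 3 := by
    have h1 := real_root hX b₀_mem hk3 (hk b₀ b₀_mem)
    have h2 := (real_ge hX b₀_mem hk1 hk3 (hk b₀ b₀_mem)).1
    by_contra hne
    have h3 : 2 + Real.sqrt 3 < (X k b₀).re := lt_of_le_of_ne h2 (Ne.symm hne)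
    have := conv b₀_mem.1 b₀_mem.2 (by linarith) h3 h1.le
    rw [g_b₀] at this
    exact lt_irrefl _ this
  have hbb : b = b₀ := by
    have h1 := hmin k hk1 hk3 b₀ b₀_mem
    rw [hnorm b hb, hnorm b₀ b₀_mem, hval] at h1
    obtain ⟨h2, h3⟩ := real_ge hX hb hk1 hk3 (hk b hb)
    exact h3 (le_antisymm h1 h2)
  subst hbb
  -- the product of the moduli
  have h13 : (-(1 / 3) : ℝ) ∈ Set.Ioo (-1 : ℝ) 0 := by constructor <;> norm_num
  have hprod : ‖X 1 b₀‖ * ‖X 2 b₀‖ * ‖X 3 b₀‖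
      ≤ ‖X 1 (-(1 / 3))‖ * ‖X 2 (-(1 / 3))‖ * ‖X 3 (-(1 / 3))‖ := by
    have i1 := hmin 1 le_rfl (by omega) _ h13
    have i2 := hmin 2 (by omega) (by omega) _ h13
    have i3 := hmin 3 (by omega) le_rfl _ h13
    gcongr
  have hv : ∀ β ∈ Set.Ioo (-1 : ℝ) 0, (-(X 0 β).re) * (‖X 1 β‖ * ‖X 2 β‖ * ‖X 3 β‖)
      = (4 + β) / -β := by
    intro β hβ
    have h1 := congrArg norm (prod_eq hX hβ)
    rw [norm_mul, norm_mul, norm_mul, norm_div] at h1
    have h2 : ‖X 0 β‖ = -(X 0 β).re := by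
      have h3 : X 0 β = (((X 0 β).re : ℝ) : ℂ) := by
        apply Complex.ext <;> simp [(hX.real β hβ).1]
      rw [h3, Complex.norm_real, Real.norm_eq_abs, Complex.ofReal_re,
        abs_of_neg (hX.real β hβ).2]
    have h3 : ‖(4 + β : ℂ)‖ = 4 + β := by
      have : (4 + β : ℂ) = ((4 + β : ℝ) : ℂ) := by push_cast; rfl
      rw [this, Complex.norm_real, Real.norm_eq_abs, abs_of_pos (by linarith [hβ.1])]
    have h4 : ‖(β : ℂ)‖ = -β := by
      rw [Complex.norm_real, Real.norm_eq_abs, abs_of_neg hβ.2]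
    rw [h2, h3, h4] at h1
    rw [← h1]
    ring
  -- bounds for the negative branch
  have hy0 : -(X 0 b₀).re < 494 / 1000 := by
    have h1 := real_root hX b₀_mem (Nat.zero_le 3) (hX.real b₀ b₀_mem).1
    have h2 := (hX.real b₀ b₀_mem).2
    by_contra hcon
    push Not at hcon
    have h3 : g b₀ (-(494 / 1000)) ≤ g b₀ (-(-(X 0 b₀).re)) := by
      rcases hcon.eq_or_lt with h | h
      · rw [← h]
      · exact (g_neg_mono b₀_mem.1 (by norm_num) h).le
    rw [neg_neg, h1] at h3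
    have h4 : 0 < g b₀ (-(494 / 1000)) := by
      unfold g b₀
      set r := Real.sqrt 3 with hrdef
      have d0 : 1 / (r - 2) = -(2 + r) := by
        rw [div_eq_iff (by linarith)]; nlinarith
      have d1 : ∀ v : ℝ, v / (1 + (r - 2)) = v * ((r + 1) / 2) := by
        intro v
        rw [div_eq_iff (by linarith)]
        linear_combination (-v / 2) * hr
      have d2 : ∀ v : ℝ, v / (2 + (r - 2)) = v * (r / 3) := by
        intro v
        rw [div_eq_iff (by linarith)]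
        linear_combination (-v / 3) * hr
      have d3 : ∀ v : ℝ, v / (3 + (r - 2)) = v * ((r - 1) / 2) := by
        intro v
        rw [div_eq_iff (by linarith)]
        linear_combination (-v / 2) * hr
      have d4 : ∀ v : ℝ, v / (4 + (r - 2)) = v * (2 - r) := by
        intro v
        rw [div_eq_iff (by linarith)]
        linear_combination v * hr
      rw [d0, d1, d2, d3, d4]
      nlinarith
    linarith
  have hy1 : 391 / 1000 < -(X 0 (-(1 / 3))).re := by
    have h1 := real_root hX h13 (Nat.zero_le 3) (hX.real _ h13).1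
    have h2 := (hX.real _ h13).2
    by_contra hcon
    push Not at hcon
    have h3 : g (-(1 / 3)) (-(-(X 0 (-(1 / 3))).re)) ≤ g (-(1 / 3)) (-(391 / 1000)) := by
      rcases hcon.eq_or_lt with h | h
      · rw [h]
      · exact (g_neg_mono h13.1 (by linarith) h).le
    rw [neg_neg, h1] at h3
    have h4 : g (-(1 / 3)) (-(391 / 1000)) < 0 := by
      unfold g
      norm_num
    linarith
  have e0 := hv b₀ b₀_mem
  have e1 := hv _ h13
  have e2 : (4 + b₀) / -b₀ = 7 + 4 * Real.sqrt 3 := by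
    unfold b₀
    rw [div_eq_iff (by linarith)]
    nlinarith
  rw [e2] at e0
  have e3 : (4 + -(1 / 3 : ℝ)) / -(-(1 / 3)) = 11 := by norm_num
  rw [e3] at e1
  set A := ‖X 1 b₀‖ * ‖X 2 b₀‖ * ‖X 3 b₀‖ with hA
  set B := ‖X 1 (-(1 / 3))‖ * ‖X 2 (-(1 / 3))‖ * ‖X 3 (-(1 / 3))‖ with hB
  have hApos : 0 ≤ A := by positivity
  have hA0 : 0 < A := by
    rcases hApos.eq_or_lt with h | h
    · rw [← h, mul_zero] at e0
      linarith
    · exact h
  -- A > (7+4√3)/0.494 and B < 11/0.391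
  have i1 : 7 + 4 * Real.sqrt 3 ≤ 494 / 1000 * A := by
    rw [← e0]
    exact mul_le_mul_of_nonneg_right hy0.le hApos
  have i2 : 391 / 1000 * B ≤ 11 := by
    rw [← e1]
    exact mul_le_mul_of_nonneg_right hy1.le (hApos.trans hprod)
  nlinarith

end

/-- Q1 fails for `α = 3`: for the branches `X 0, X 1, X 2, X 3` of the zeros of `G_{3,β}` there is no
`β* ∈ (-1, 0)` at which all of `|X 1|, |X 2|, |X 3|` attain their minimum over `(-1, 0)`. -/
theorem result : ∃ α : ℕ, 1 ≤ α ∧ ∀ X : ℕ → ℝ → ℂ, Branches α X →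
    ¬ ∃ b ∈ Set.Ioo (-1 : ℝ) 0, ∀ k, 1 ≤ k → k ≤ α →
      ∀ β ∈ Set.Ioo (-1 : ℝ) 0, ‖X k b‖ ≤ ‖X k β‖ :=
  ⟨3, by norm_num, fun _ hX => no_common hX⟩

end Pool.Agent.Results.MP_9fecad_an.NoCommonMinimiser
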